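import Mathlib

set_option autoImplicit false

/-!
# Project EN, package FINV: from sparse places to all places for families (abstract form)
-/

namespace Pool.Agent.P8H75.EN

open Finset

/-- the members `x + i s` of `[0, L]`, `x < s`, `i < K`, `s = L / K` -/
lemma pigeonV (L K : ℕ) (hK : 1 ≤ K) (p ε : ℝ) (hp : 0 ≤ p) (hε : 0 < ε)
    (hs : 2 ≤ ε * ((L / K : ℕ) : ℝ)) (A : ℕ → Prop) [DecidablePred A]
    (h : (p + ε) * L ≤ (((range (L + 1)).filter A).card : ℝ)) :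
    ε / 4 * ((L / K : ℕ) : ℝ) ≤ (((range (L / K)).filter (fun x => (p + ε / 4) * K ≤
      ((univ.filter (fun i : Fin K => A (x + i * (L / K)))).card : ℝ))).card : ℝ) := by
  set s := L / K with hsdef
  set h' : ℕ → ℕ := fun x => (univ.filter (fun i : Fin K => A (x + i * s))).card with hh'
  set G := (range s).filter (fun x => (p + ε / 4) * K ≤ (h' x : ℝ)) with hG
  have hsK : s * K ≤ L := Nat.div_mul_le_self L K
  have hLK : L < (s + 1) * K := by
    rw [hsdef]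
    have := Nat.lt_mul_div_succ L (by omega : 0 < K)
    rw [mul_comm] at this
    exact this
  have hs0 : 0 < s := by
    rcases Nat.eq_zero_or_pos s with h0 | h0
    · rw [h0] at hs
      norm_num at hs
    · exact h0
  -- counting
  have h1 : ((range (L + 1)).filter A) ⊆ ((range s).biUnion fun x =>
      (univ.filter (fun i : Fin K => A (x + i * s))).image (fun i : Fin K => x + i * s)) ∪
        Ico (s * K) (L + 1) := by
    intro j hj
    rw [mem_filter, mem_range] at hj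
    rw [mem_union]
    by_cases hj1 : j < s * K
    · left
      rw [mem_biUnion]
      refine ⟨j % s, mem_range.2 (Nat.mod_lt _ hs0), ?_⟩
      rw [mem_image]
      have hi : j / s < K := by
        rw [Nat.div_lt_iff_lt_mul hs0]
        rw [mul_comm]
        exact hj1
      have e : j % s + j / s * s = j := by
        rw [mul_comm]
        exact Nat.mod_add_div j s
      refine ⟨⟨j / s, hi⟩, ?_, e⟩
      rw [mem_filter]
      refine ⟨mem_univ _, ?_⟩
      simp only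
      rw [e]
      exact hj.2
    · right
      rw [mem_Ico]
      omega
  have h2 : ((range (L + 1)).filter A).card ≤ (∑ x ∈ range s, h' x) + K := by
    refine (card_le_card h1).trans ((card_union_le _ _).trans (add_le_add ?_ ?_))
    · exact card_biUnion_le.trans (sum_le_sum fun x _ => card_image_le)
    · rw [Nat.card_Ico]
      have : (s + 1) * K = s * K + K := by ring
      omega
  have h3 : (∑ x ∈ range s, (h' x : ℝ)) ≤ G.card * K + s * ((p + ε / 4) * K) := by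
    have h4 : ∀ x ∈ range s, (h' x : ℝ) ≤ (if x ∈ G then (K : ℝ) else 0) + (p + ε / 4) * K := by
      intro x hx
      have hpos : 0 ≤ (p + ε / 4) * K := by positivity
      split_ifs with hxG
      · have : h' x ≤ K := by
          refine (card_le_univ _).trans ?_
          rw [Fintype.card_fin]
        have : (h' x : ℝ) ≤ K := by exact_mod_cast this
        linarith
      · have : ¬ ((p + ε / 4) * K ≤ (h' x : ℝ)) := fun hc => hxG (mem_filter.2 ⟨hx, hc⟩)
        rw [zero_add]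
        exact (not_le.1 this).le
    refine (sum_le_sum h4).trans ?_
    rw [sum_add_distrib, sum_const, card_range, nsmul_eq_mul]
    refine add_le_add ?_ le_rfl
    rw [← sum_filter, sum_const, nsmul_eq_mul]
    refine mul_le_mul_of_nonneg_right ?_ (Nat.cast_nonneg _)
    exact_mod_cast card_le_card fun x hx => (mem_filter.1 hx).2
  have h5 : (p + ε) * L ≤ G.card * K + s * ((p + ε / 4) * K) + K := by
    have h2' : (((range (L + 1)).filter A).card : ℝ) ≤ (∑ x ∈ range s, (h' x : ℝ)) + K := by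
      exact_mod_cast h2
    linarith
  have hKpos : (0 : ℝ) < K := by exact_mod_cast hK
  have hsKr : (s : ℝ) * K ≤ L := by exact_mod_cast hsK
  -- divide by `K`
  have h6 : 3 / 4 * ε * (s * K) ≤ (G.card + 1) * K := by nlinarith
  have h7 : 3 / 4 * ε * s ≤ G.card + 1 := by
    refine le_of_mul_le_mul_right ?_ hKpos
    calc 3 / 4 * ε * s * K = 3 / 4 * ε * (s * K) := by ring
      _ ≤ _ := h6
  linarith

/-- **From sparse places to all places, for families with few sign patterns** -/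
theorem finv_core (g : ℕ → ℝ) (D : ℕ → ℝ) (p ε η θ : ℝ) (hp : 0 ≤ p) (hε : 0 < ε) (hη : 0 < η)
    (c κ : ℝ) (hc0 : 0 < c) (hc1 : c < 1 / 10) (L₁ : ℕ)
    (H : ∀ L K N : ℕ, L₁ ≤ L → (L : ℝ) ^ (1 + θ) ≤ Real.log N →
      (L : ℝ) ^ c ≤ K → (K : ℝ) ≤ (L : ℝ) ^ (2 * c) → ∀ k : Fin K → ℕ, (∀ i, k i ≤ L) →
      (∀ i j, i ≠ j → (L : ℝ) ^ (1 - 3 * c) ≤ |(k i : ℝ) - k j|) →
      ∀ V : Set (Fin K → ℝ), (∀ v ∈ V, ∀ b : ℝ, (fun i => v i + b) ∈ V) →
      (∀ y : Fin K → ℝ, (({A : Set (Fin K) | ∃ v ∈ V, A = {i : Fin K | v i ≤ y i}} :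
        Set (Set (Fin K))).ncard : ℝ) ≤ Real.exp (κ * K)) →
      (({n : ℕ | 1 ≤ n ∧ n ≤ N ∧ n ∈ {n : ℕ | ∃ v ∈ V, (p + ε / 4) * K ≤
        (({i | |g (n + k i) - v i| ≤ D L} : Set (Fin K)).ncard : ℝ)}} : Set ℕ).ncard : ℝ) ≤
          η * ε / 8 * N) :
    ∃ L₀ : ℕ, ∀ L N : ℕ, L₀ ≤ L → (L : ℝ) ^ (1 + θ) ≤ Real.log N →
      ∀ F : Set (ℕ → ℝ), (∀ f ∈ F, ∀ b : ℝ, (fun j => f j + b) ∈ F) →
      (∀ (b s : ℕ) (y : Fin ⌈(L : ℝ) ^ c⌉₊ → ℝ), 1 ≤ s → b < s → s * ⌈(L : ℝ) ^ c⌉₊ ≤ L →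
        (({A : Set (Fin ⌈(L : ℝ) ^ c⌉₊) | ∃ f ∈ F,
          A = {i : Fin ⌈(L : ℝ) ^ c⌉₊ | f (b + i * s) ≤ y i}} :
            Set (Set (Fin ⌈(L : ℝ) ^ c⌉₊))).ncard : ℝ) ≤ Real.exp (κ * ⌈(L : ℝ) ^ c⌉₊)) →
      (({n : ℕ | 1 ≤ n ∧ n ≤ N ∧ n ∈ {n : ℕ | ∃ f ∈ F,
        (p + ε) * L ≤ (({j : ℕ | j ≤ L ∧ |g (n + j) - f j| ≤ D L} : Set ℕ).ncard : ℝ)}} :
          Set ℕ).ncard : ℝ) ≤ η * N := by
  classical
  -- large `L`
  have hev : ∀ᶠ L : ℕ in Filter.atTop, L₁ ≤ L ∧ 1 ≤ L ∧ 2 ≤ (L : ℝ) ^ c ∧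
      2 / ε ≤ (L : ℝ) ^ (1 - 3 * c) := by
    have t1 := (tendsto_rpow_atTop hc0).comp (tendsto_natCast_atTop_atTop (R := ℝ))
    have t2 := (tendsto_rpow_atTop (by linarith : 0 < 1 - 3 * c)).comp
      (tendsto_natCast_atTop_atTop (R := ℝ))
    filter_upwards [Filter.eventually_ge_atTop L₁, Filter.eventually_ge_atTop 1,
      t1.eventually_ge_atTop 2, t2.eventually_ge_atTop (2 / ε)] with L h1 h2 h3 h4
    exact ⟨h1, h2, h3, h4⟩
  obtain ⟨L₀, hL₀⟩ := Filter.eventually_atTop.1 hev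
  refine ⟨L₀, fun L N hL hN F hF1 hF2 => ?_⟩
  obtain ⟨hLL₁, hL1, hLc, hLe⟩ := hL₀ L hL
  have hL1r : (1 : ℝ) ≤ L := by exact_mod_cast hL1
  have hL0r : (0 : ℝ) < L := by linarith
  set K := ⌈(L : ℝ) ^ c⌉₊ with hKdef
  have hKlo : (L : ℝ) ^ c ≤ K := Nat.le_ceil _
  have hK1 : 1 ≤ K := by
    have : (1 : ℝ) ≤ K := by linarith
    exact_mod_cast this
  have hKpos : (0 : ℝ) < K := by exact_mod_cast hK1
  have hKhi : (K : ℝ) ≤ (L : ℝ) ^ (2 * c) := by
    have h1 : (K : ℝ) < (L : ℝ) ^ c + 1 := Nat.ceil_lt_add_one (by positivity)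
    have h2 : (L : ℝ) ^ (2 * c) = (L : ℝ) ^ c * (L : ℝ) ^ c := by
      rw [← Real.rpow_add hL0r]; congr 1; ring
    rw [h2]
    nlinarith
  set s := L / K with hsdef
  have hP1 : 1 ≤ (L : ℝ) ^ (1 - 3 * c) := Real.one_le_rpow hL1r (by linarith)
  have hs_lo : (L : ℝ) ^ (1 - 3 * c) ≤ s := by
    have h1 : (L : ℝ) < (s + 1) * K := by
      have := Nat.lt_mul_div_succ L (by omega : 0 < K)
      rw [mul_comm] at this
      exact_mod_cast this
    have h2 : (L : ℝ) = (L : ℝ) ^ (1 - 2 * c) * (L : ℝ) ^ (2 * c) := by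
      rw [← Real.rpow_add hL0r]
      ring_nf
      rw [Real.rpow_one]
    have h3 : (L : ℝ) ^ (1 - 2 * c) = (L : ℝ) ^ (1 - 3 * c) * (L : ℝ) ^ c := by
      rw [← Real.rpow_add hL0r]; congr 1; ring
    have h4 : (L : ℝ) ^ (1 - 2 * c) < s + 1 := by
      by_contra hc
      push Not at hc
      have h5 : ((s : ℝ) + 1) * K ≤ (L : ℝ) ^ (1 - 2 * c) * (L : ℝ) ^ (2 * c) :=
        mul_le_mul hc hKhi hKpos.le (by positivity)
      rw [← h2] at h5
      linarith
    rw [h3] at h4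
    nlinarith
  have hsε : 2 ≤ ε * (s : ℝ) := by
    have h1 : 2 / ε ≤ s := hLe.trans hs_lo
    rw [div_le_iff₀ hε] at h1
    linarith
  have hs0 : (0 : ℝ) < s := by
    by_contra hc
    have h0 : (s : ℝ) = 0 := le_antisymm (not_lt.1 hc) (Nat.cast_nonneg _)
    rw [h0] at hsε
    norm_num at hsε
  have hs1 : 1 ≤ s := by
    have : 0 < s := by exact_mod_cast hs0
    omega
  have hsL : s * K ≤ L := Nat.div_mul_le_self L K
  -- the exceptional sets
  let Exc : ℕ → Set ℕ := fun x => {n : ℕ | ∃ v ∈ {v : Fin K → ℝ | ∃ f ∈ F,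
    v = fun i : Fin K => f (x + i * s)}, (p + ε / 4) * K ≤
        (({i | |g (n + (x + i * s)) - v i| ≤ D L} : Set (Fin K)).ncard : ℝ)}
  have hExc : ∀ x < s, (((Icc 1 N).filter (fun n => n ∈ Exc x)).card : ℝ) ≤
      η * ε / 8 * N := by
    intro x hx
    have h1 := H L K N hLL₁ hN hKlo hKhi (fun i : Fin K => x + i * s) (fun i => by
      have h2 : ((i : ℕ) + 1) * s ≤ K * s := Nat.mul_le_mul_right s i.2
      have h3 : ((i : ℕ) + 1) * s = i * s + s := by ring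
      have h4 : K * s = s * K := by ring
      show x + i * s ≤ L
      omega) (fun i j hij => by
      have h2 : ((x + (i : ℕ) * s : ℕ) : ℝ) - ((x + (j : ℕ) * s : ℕ) : ℝ) =
          (((i : ℕ) : ℝ) - (j : ℕ)) * s := by
        push_cast; ring
      show (L : ℝ) ^ (1 - 3 * c) ≤ |((x + (i : ℕ) * s : ℕ) : ℝ) - ((x + (j : ℕ) * s : ℕ) : ℝ)|
      rw [h2, abs_mul, abs_of_pos hs0]
      have h3 : (1 : ℝ) ≤ |((i : ℕ) : ℝ) - (j : ℕ)| := by
        have h4 : ((i : ℕ) : ℤ) - (j : ℕ) ≠ 0 := fun h5 => hij (Fin.ext (by omega))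
        have h5 := Int.one_le_abs h4
        exact_mod_cast h5
      nlinarith) {v : Fin K → ℝ | ∃ f ∈ F, v = fun i : Fin K => f (x + i * s)} (by
      rintro v ⟨f, hf, rfl⟩ b
      exact ⟨_, hF1 f hf b, rfl⟩) (by
      intro y
      have h2 := hF2 x s y hs1 hx hsL
      have h3 : ({A : Set (Fin K) | ∃ v ∈ {v : Fin K → ℝ | ∃ f ∈ F,
          v = fun i : Fin K => f (x + i * s)}, A = {i : Fin K | v i ≤ y i}} : Set (Set (Fin K))) =
          {A : Set (Fin K) | ∃ f ∈ F, A = {i : Fin K | f (x + i * s) ≤ y i}} := by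
        ext A
        constructor
        · rintro ⟨v, ⟨f, hf, rfl⟩, rfl⟩
          exact ⟨f, hf, rfl⟩
        · rintro ⟨f, hf, rfl⟩
          exact ⟨_, ⟨f, hf, rfl⟩, rfl⟩
      rw [h3]
      exact h2)
    refine le_trans ?_ h1
    rw [← Set.ncard_coe_finset]
    have hfin : ({n : ℕ | 1 ≤ n ∧ n ≤ N ∧ n ∈ Exc x} : Set ℕ).Finite :=
      (Set.finite_Icc 1 N).subset fun n hn => ⟨hn.1, hn.2.1⟩
    have h2 : (((Icc 1 N).filter (fun n => n ∈ Exc x) : Finset ℕ) : Set ℕ) ⊆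
        {n : ℕ | 1 ≤ n ∧ n ≤ N ∧ n ∈ Exc x} := by
      intro n hn
      rw [mem_coe, mem_filter, mem_Icc] at hn
      exact ⟨hn.1.1, hn.1.2, hn.2⟩
    exact_mod_cast Set.ncard_le_ncard h2 hfin
  -- the bad `n`
  set Bad := (Icc 1 N).filter (fun n => ∃ f ∈ F,
    (p + ε) * L ≤ (({j : ℕ | j ≤ L ∧ |g (n + j) - f j| ≤ D L} : Set ℕ).ncard : ℝ)) with hBad
  have hset : ({n : ℕ | 1 ≤ n ∧ n ≤ N ∧ n ∈ {n : ℕ | ∃ f ∈ F,
      (p + ε) * L ≤ (({j : ℕ | j ≤ L ∧ |g (n + j) - f j| ≤ D L} : Set ℕ).ncard : ℝ)}} : Set ℕ) =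
      (Bad : Set ℕ) := by
    ext n
    rw [hBad, mem_coe, mem_filter, mem_Icc, Set.mem_ofPred_eq, Set.mem_ofPred_eq]
    tauto
  rw [hset, Set.ncard_coe_finset]
  have hbad : ∀ n ∈ Bad, ε / 4 * (s : ℝ) ≤ (((range s).filter (fun x => n ∈ Exc x)).card : ℝ) := by
    intro n hn
    obtain ⟨-, f, hf, hfb⟩ := mem_filter.1 hn
    have e1 : ({j : ℕ | j ≤ L ∧ |g (n + j) - f j| ≤ D L} : Set ℕ) =
        (((range (L + 1)).filter (fun j => |g (n + j) - f j| ≤ D L) : Finset ℕ) : Set ℕ) := by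
      ext j
      rw [mem_coe, mem_filter, mem_range, Set.mem_ofPred_eq, Nat.lt_succ_iff]
    rw [e1, Set.ncard_coe_finset] at hfb
    refine (pigeonV L K hK1 p ε hp hε hsε _ hfb).trans ?_
    have h1 : ((range s).filter (fun x => (p + ε / 4) * K ≤
        ((univ.filter (fun i : Fin K => |g (n + (x + i * s)) - f (x + i * s)| ≤ D L)).card : ℝ))) ⊆
        (range s).filter (fun x => n ∈ Exc x) := by
      intro x hx
      rw [mem_filter] at hx ⊢
      refine ⟨hx.1, fun i => f (x + i * s), ⟨f, hf, rfl⟩, ?_⟩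
      refine hx.2.trans (le_of_eq ?_)
      rw [← Set.ncard_coe_finset]
      congr 2
      ext i
      rw [mem_coe, mem_filter, Set.mem_ofPred_eq]
      simp only [mem_univ, true_and]
    exact_mod_cast card_le_card h1
  -- double counting
  have hdc : ε / 4 * s * (Bad.card : ℝ) ≤ s * (η * ε / 8 * N) := by
    have h1 : (∑ n ∈ Bad, (((range s).filter (fun x => n ∈ Exc x)).card : ℝ)) =
        ∑ x ∈ range s, ((Bad.filter (fun n => n ∈ Exc x)).card : ℝ) := by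
      have := sum_card_bipartiteAbove_eq_sum_card_bipartiteBelow
        (s := Bad) (t := range s) (fun n x => n ∈ Exc x)
      unfold bipartiteAbove bipartiteBelow at this
      exact_mod_cast this
    calc ε / 4 * s * (Bad.card : ℝ) = ∑ n ∈ Bad, ε / 4 * (s : ℝ) := by
          rw [sum_const, nsmul_eq_mul]; ring
      _ ≤ ∑ n ∈ Bad, (((range s).filter (fun x => n ∈ Exc x)).card : ℝ) := sum_le_sum hbad
      _ = ∑ x ∈ range s, ((Bad.filter (fun n => n ∈ Exc x)).card : ℝ) := h1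
      _ ≤ ∑ _x ∈ range s, η * ε / 8 * N := by
          refine sum_le_sum fun x hx => ?_
          refine le_trans ?_ (hExc x (mem_range.1 hx))
          exact_mod_cast card_le_card (filter_subset_filter _ (filter_subset _ _))
      _ = s * (η * ε / 8 * N) := by rw [sum_const, card_range, nsmul_eq_mul]
  have h8 : ε / 4 * (Bad.card : ℝ) ≤ η * ε / 8 * N := by
    have : s * (ε / 4 * (Bad.card : ℝ)) ≤ s * (η * ε / 8 * N) := by linarith
    exact le_of_mul_le_mul_left this hs0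
  have h9 : η * ε / 8 * (N : ℝ) ≤ ε / 4 * (η * N) := by
    have : 0 ≤ η * ε * N := by positivity
    linarith
  have h10 : ε / 4 * (Bad.card : ℝ) ≤ ε / 4 * (η * N) := h8.trans h9
  exact le_of_mul_le_mul_left h10 (by positivity)

end Pool.Agent.P8H75.EN
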