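import Pool.Agent.P8H60.EN.Stm3
import Pool.Agent.P8H75.EN.FinvCore

set_option autoImplicit false

/-!
# Project EN, package FINV
-/

namespace Pool.Agent.P8H75.EN

open Pool.Agent.P8H60.EN Pool.Agent.P8H60.BC Pool.Agent.P8H60.BW

theorem t_FINV : S_FINVA := by
  intro hPL δ ε η θ hδ hε hη hθ
  obtain ⟨c, κ, hc0, hc1, hκ, L₁, H⟩ :=
    hPL δ (ε / 4) θ (η * ε / 8) hδ (by positivity) hθ (by positivity)
  have hp : 0 ≤ pG δ := by
    unfold pG
    exact MeasureTheory.measureReal_nonneg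
  obtain ⟨L₀, h⟩ := finv_core (fun m => W (SG.ord m))
    (fun L => δ * Real.sqrt (2 * Real.log L) / (2 * Real.pi)) (pG δ) ε η θ hp hε hη
    c κ hc0 hc1 L₁ H
  exact ⟨c, κ, hc0, hc1, hκ, L₀, h⟩

end Pool.Agent.P8H75.EN
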